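import Pool.Agent.Strips47.Nu

set_option autoImplicit false

namespace Pool.Agent.Results.MP_5458ad_co.MostDirections

open MeasureTheory Real Pool.Agent.Strips47

/-- There is an absolute constant `C` such that for every exponent `s` and every `n ≥ 1` there is
a finite family of sets of `n` distinct points in the unit square such that

* for every direction, the average over the family of the `s`-th power of the number of points in
  the fullest strip (of half-width `1 / n`) of this direction is at most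
  `exp (C ((s + 1) log (s + 2)) ^ 2)`;
* for every finite measure `ν` on the set of angles there is one member of the family for which,
  for every `t > 0`, the set of angles `θ` such that some line with unit normal
  `(cos θ, sin θ)` has more than `t` of the points within distance `1 / n` has `ν`-measure at most
  `ν(ℝ) exp (C ((s + 1) log (s + 2)) ^ 2) / t ^ s`. -/
theorem result :
    ∃ C : ℝ, ∀ s n : ℕ, 0 < n →
      ∃ (N : ℕ) (P : Fin N → Fin n → ℝ × ℝ), 0 < N ∧
        (∀ j, Function.Injective (P j)) ∧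
        (∀ j i, 0 ≤ (P j i).1 ∧ (P j i).1 ≤ 1 ∧ 0 ≤ (P j i).2 ∧ (P j i).2 ≤ 1) ∧
        (∀ (θ : ℝ) (c : Fin N → ℝ),
          ∑ j, ((Finset.univ.filter (fun i : Fin n =>
              |cos θ * (P j i).1 + sin θ * (P j i).2 - c j| ≤ 1 / (n : ℝ))).card : ℝ) ^ s ≤
            N * Real.exp (C * (((s : ℝ) + 1) * Real.log (s + 2)) ^ 2)) ∧
        (∀ (ν : Measure ℝ), IsFiniteMeasure ν → ∃ j, ∀ t : ℝ, 0 < t →
          ν {θ : ℝ | ∃ c : ℝ,
            t < ((Finset.univ.filter (fun i : Fin n =>
              |cos θ * (P j i).1 + sin θ * (P j i).2 - c| ≤ 1 / (n : ℝ))).card : ℝ)} ≤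
            ν Set.univ *
              ENNReal.ofReal (Real.exp (C * (((s : ℝ) + 1) * Real.log (s + 2)) ^ 2) / t ^ s)) := by
  classical
  refine ⟨9000, ?_⟩
  intro s n hn
  have hpi := Real.pi_pos
  have hpi3 := Real.pi_gt_three
  -- parameters
  obtain ⟨h, H, hH, hh4, hsh, hharm, hHs, hhle, hslog⟩ := params s
  obtain ⟨d, hd⟩ : ∃ d : ℕ, d + 2 = 2 * h := ⟨2 * h - 2, by omega⟩
  have hds : 4 * H * (s + 1) ≤ d := by omega
  obtain ⟨n0, hn0⟩ : ∃ n0 : ℕ, n0 = 2 ^ (d + 3) + 2 * h.factorial + 1 := ⟨_, rfl⟩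
  set B : ℝ := (h : ℝ) * (2 * 3 ^ (d + 3) * 2 ^ (d + 1)) ^ h with hB
  have hB0 : 0 ≤ B := by positivity
  set K : ℝ := Real.exp (9000 * (((s : ℝ) + 1) * Real.log (s + 2)) ^ 2) with hK
  have hKle : 2 * π * B * 4 ^ s + π * (n0 : ℝ) ^ s ≤ K := by
    have h1 := const_le s h d n0 hd hh4 hsh hslog hn0
    refine h1.trans ?_
    rw [hK]
    apply Real.exp_le_exp.mpr
    have h2 : (0 : ℝ) ≤ h := Nat.cast_nonneg h
    have h3 : (h : ℝ) ^ 2 ≤ (30 * (((s : ℝ) + 1) * Real.log (s + 2))) ^ 2 :=
      pow_le_pow_left₀ h2 hhle 2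
    nlinarith
  have hn01 : (1 : ℝ) ≤ n0 := by
    have h1 : (1 : ℕ) ≤ n0 := by rw [hn0]; exact Nat.le_add_left 1 _
    exact_mod_cast h1
  have h4s : (1 : ℝ) ≤ 4 ^ s := one_le_pow₀ (by norm_num)
  have hn0s : (1 : ℝ) ≤ (n0 : ℝ) ^ s := one_le_pow₀ hn01
  have hBK : 2 * B * 4 ^ s ≤ K - (n0 : ℝ) ^ s := by
    have h1 : 0 ≤ B * 4 ^ s := by positivity
    nlinarith
  have hn0K : (n0 : ℝ) ^ s ≤ K := by
    have h1 : 0 ≤ B * 4 ^ s := by positivity
    nlinarith
  have hK0 : 0 < K := Real.exp_pos _
  have hnR : (0 : ℝ) < n := by exact_mod_cast hn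
  -- trivial bound
  have htriv : ∀ (ν : Measure ℝ), IsFiniteMeasure ν → ∀ S : Set ℝ, ∀ t : ℝ, 0 < t → t < n0 →
      ν S ≤ ν Set.univ * ENNReal.ofReal (K / t ^ s) := by
    intro ν _ S t ht htn
    have h1 : t ^ s ≤ (n0 : ℝ) ^ s := pow_le_pow_left₀ ht.le htn.le s
    have h2 : (1 : ℝ) ≤ K / t ^ s := by
      rw [le_div_iff₀ (by positivity), one_mul]; exact h1.trans hn0K
    have h3 : (1 : ENNReal) ≤ ENNReal.ofReal (K / t ^ s) := by
      rw [← ENNReal.ofReal_one]; exact ENNReal.ofReal_le_ofReal h2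
    calc ν S ≤ ν Set.univ := measure_mono (Set.subset_univ _)
      _ = ν Set.univ * 1 := (mul_one _).symm
      _ ≤ _ := mul_le_mul_right h3 _
  -- number of points in a strip is at most n
  have hcardn : ∀ (p : Fin n → ℝ × ℝ) (θ c : ℝ), (Finset.univ.filter (fun i : Fin n =>
              |cos θ * (p i).1 + sin θ * (p i).2 - c| ≤ 1 / (n : ℝ))).card ≤ n := by
    intro p θ c
    calc _ ≤ (Finset.univ : Finset (Fin n)).card := Finset.card_filter_le _ _
      _ = n := by simp
  -- empty set for large t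
  have hempty : ∀ (ν : Measure ℝ) (p : Fin n → ℝ × ℝ), ∀ t : ℝ, (n : ℝ) ≤ t →
      ν {θ : ℝ | ∃ c : ℝ,
            t < ((Finset.univ.filter (fun i : Fin n =>
              |cos θ * (p i).1 + sin θ * (p i).2 - c| ≤ 1 / (n : ℝ))).card : ℝ)} ≤
            ν Set.univ * ENNReal.ofReal (K / t ^ s) := by
    intro ν p t ht
    have : {θ : ℝ | ∃ c : ℝ,
            t < ((Finset.univ.filter (fun i : Fin n =>
              |cos θ * (p i).1 + sin θ * (p i).2 - c| ≤ 1 / (n : ℝ))).card : ℝ)} = ∅ := by
      rw [Set.eq_empty_iff_forall_notMem]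
      rintro θ ⟨c, hc⟩
      have h2 : ((Finset.univ.filter (fun i : Fin n =>
              |cos θ * (p i).1 + sin θ * (p i).2 - c| ≤ 1 / (n : ℝ))).card : ℝ) ≤ n := by
        exact_mod_cast hcardn p θ c
      linarith
    rw [this, measure_empty]
    exact zero_le
  rcases lt_or_ge n n0 with hsmall | hbig
  · -- small n
    obtain ⟨m, hm, hnm, _⟩ := side_bounds n hn
    have hsmR : (n : ℝ) ≤ n0 := by exact_mod_cast hsmall.le
    refine ⟨1, fun _ => gridPt m n, Nat.one_pos, fun _ => gridPt_injective m n hm,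
      fun _ => gridPt_mem m n hm hnm, ?_, ?_⟩
    · intro θ c
      rw [Fin.sum_univ_one]
      have h1 : ((Finset.univ.filter (fun i : Fin n =>
              |cos θ * (gridPt m n i).1 + sin θ * (gridPt m n i).2 - c 0| ≤
                1 / (n : ℝ))).card : ℝ) ≤ n0 :=
        (by exact_mod_cast hcardn (gridPt m n) θ (c 0) : _ ≤ (n : ℝ)).trans hsmR
      have h2 := pow_le_pow_left₀ (Nat.cast_nonneg _) h1 s
      push_cast
      rw [one_mul]
      exact h2.trans hn0K
    · intro ν hν
      refine ⟨0, ?_⟩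
      intro t ht
      rcases lt_or_ge t (n0 : ℝ) with h1 | h1
      · exact htriv ν hν _ t ht h1
      · apply hempty
        linarith
  · -- large n
    have hn1 : 1 ≤ n := hn
    have hN0 : n ^ (d + 1) / 2 ≠ 0 := by
      have h1 : n ≤ n ^ (d + 1) := Nat.le_self_pow (by omega) n
      have h2 : 2 ≤ n := by
        have : 1 ≤ 2 ^ (d + 3) := Nat.one_le_two_pow
        omega
      omega
    obtain ⟨q, hqp, hq1, hq2⟩ := Nat.exists_prime_lt_and_le_two_mul _ hN0
    have hqF : Fact q.Prime := ⟨hqp⟩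
    have hqle : q ≤ n ^ (d + 1) := by omega
    have hqn : n ^ (d + 1) ≤ 2 * q := by omega
    -- q is large
    have hbign : 2 * h.factorial < n := by
      have : 1 ≤ 2 ^ (d + 3) := Nat.one_le_two_pow
      omega
    have hbign2 : 2 ^ (d + 3) ≤ n := by omega
    have hqs : h.factorial * n ^ h < q := by
      have h1 : h + 1 ≤ d + 1 := by omega
      have h2 : n * n ^ h ≤ n ^ (d + 1) := by
        calc n * n ^ h = n ^ (h + 1) := by rw [pow_succ]; ring
          _ ≤ n ^ (d + 1) := Nat.pow_le_pow_right hn1 h1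
      have h3 : 0 < n ^ h := Nat.pow_pos hn
      have h4 : (2 * h.factorial) * n ^ h < n * n ^ h :=
        Nat.mul_lt_mul_of_pos_right hbign h3
      have h5 : 2 * (h.factorial * n ^ h) < 2 * q := by
        calc 2 * (h.factorial * n ^ h) = (2 * h.factorial) * n ^ h := by ring
          _ < n * n ^ h := h4
          _ ≤ n ^ (d + 1) := h2
          _ ≤ 2 * q := hqn
      omega
    have hinj : 4 * (2 * n) ^ d ≤ q := by
      have h1 : 2 * (4 * (2 * n) ^ d) ≤ 2 * q := by
        calc 2 * (4 * (2 * n) ^ d) = 2 ^ (d + 3) * n ^ d := by rw [mul_pow]; ring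
          _ ≤ n * n ^ d := Nat.mul_le_mul_right _ hbign2
          _ = n ^ (d + 1) := by rw [pow_succ]; ring
          _ ≤ 2 * q := hqn
      omega
    have hnq : n < q := by
      have h1 : n ≤ n ^ h := Nat.le_self_pow (by omega) n
      have h2 : 1 ≤ h.factorial := Nat.factorial_pos _
      calc n ≤ n ^ h := h1
        _ ≤ h.factorial * n ^ h := Nat.le_mul_of_pos_left _ h2
        _ < q := hqs
    have hq0 : (0 : ℝ) < q := by exact_mod_cast hqp.pos
    -- the good residue vectors
    set G := Finset.univ.filter (fun u : Fin (d + 2) → ZMod q => ¬ BadInj d n q u) with hG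
    have hGge := card_good_ge d n q hn1 hinj hnq
    rw [← hG] at hGge
    have hGpos : 0 < G.card := by
      have : (0 : ℝ) < G.card := lt_of_lt_of_le (by positivity) hGge
      exact_mod_cast this
    choose X hX hb h0 using fun u : Fin (d + 2) → ZMod q => exists_class d n q hqle u
    have hgoodmem : ∀ x : G, ¬ BadInj d n q x.1 := fun x => (Finset.mem_filter.mp x.2).2
    let e : Fin G.card ≃ G := G.equivFin.symm
    refine ⟨G.card, fun j => proj (X (e j).1), hGpos, ?_, ?_, ?_, ?_⟩
    · intro j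
      exact proj_injective d n q hn (e j).1 (hgoodmem (e j)) _ (hX _) (hb _) (h0 _)
    · intro j i
      exact proj_mem d n hn _ (hb _) i
    · -- moments in one direction
      intro θ c
      let cnt : (Fin (d + 2) → ZMod q) → ℝ → ℕ := fun u c => (Finset.univ.filter
        (fun i : Fin n => |cos θ * (proj (X u) i).1 + sin θ * (proj (X u) i).2 - c| ≤
          1 / (n : ℝ))).card
      let k : (Fin (d + 2) → ZMod q) → ℕ := fun u =>
        if hu : u ∈ G then cnt u (c (e.symm ⟨u, hu⟩)) else 0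
      have hk : ∀ u ∈ G, k u ≤ n ∧ k u ≤ (lat d n q (cos θ) (sin θ) u 0).card := by
        intro u hu
        simp only [k, hu, dif_pos]
        exact ⟨hcardn _ _ _, strip_le d n q hn u (X u) (hX u) (hb u) (h0 u) _ _ _⟩
      have hmom := moment_le s d n q h H θ hH hharm hd hds hqn hqs hn1 G k hk
      have hsum : ∑ j, ((cnt (e j).1 (c j) : ℕ) : ℝ) ^ s = ∑ u ∈ G, (k u : ℝ) ^ s := by
        rw [← Finset.sum_coe_sort G (fun u => (k u : ℝ) ^ s), ← Equiv.sum_comp e]
        apply Finset.sum_congr rfl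
        intro j _
        have h1 : k (e j).1 = cnt (e j).1 (c j) := by
          have h2 : (e j).1 ∈ G := (e j).2
          simp only [k, h2, dif_pos]
          congr 1
          have h3 : (⟨(e j).1, h2⟩ : G) = e j := rfl
          rw [h3, Equiv.symm_apply_apply]
        rw [h1]
      show ∑ j, ((cnt (e j).1 (c j) : ℕ) : ℝ) ^ s ≤ _
      rw [hsum]
      refine hmom.trans ?_
      have h1 : B * (q : ℝ) ^ (d + 2) ≤ 2 * B * G.card := by nlinarith
      have h2 : 2 * B ≤ 2 * B * 4 ^ s := by nlinarith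
      calc (G.card : ℝ) + B * q ^ (d + 2) ≤ G.card * (1 + 2 * B) := by nlinarith
        _ ≤ G.card * K := by
            apply mul_le_mul_of_nonneg_left _ (Nat.cast_nonneg _)
            linarith
    · -- one member for a measure
      intro ν hν
      obtain ⟨u, hu, hL⟩ := exists_good_nu ν s d n q h H (by omega) hH hharm hd hds hqn hqs hn1
        hinj hnq
      have huG : u ∈ G := Finset.mem_filter.mpr ⟨Finset.mem_univ _, hu⟩
      refine ⟨e.symm ⟨u, huG⟩, ?_⟩
      have heq : (e (e.symm ⟨u, huG⟩)).1 = u := by rw [Equiv.apply_symm_apply]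
      simp only [heq]
      show ∀ t : ℝ, 0 < t → ν {θ : ℝ | ∃ c : ℝ,
            t < ((Finset.univ.filter (fun i : Fin n =>
              |cos θ * (proj (X u) i).1 + sin θ * (proj (X u) i).2 - c| ≤ 1 / (n : ℝ))).card : ℝ)} ≤
            ν Set.univ * ENNReal.ofReal (K / t ^ s)
      intro t ht
      rcases lt_or_ge t 1 with ht1 | ht1
      · exact htriv ν hν _ t ht (by linarith)
      rcases lt_or_ge t (n : ℝ) with htn | htn
      swap
      · exact hempty _ _ t htn
      -- main range
      have hfl : 1 ≤ ⌊t⌋₊ := by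
        rw [Nat.one_le_floor_iff]; exact ht1
      set L := Nat.log 4 ⌊t⌋₊ with hLdef
      have hL1 : 4 ^ L ≤ ⌊t⌋₊ := Nat.pow_log_le_self 4 (by omega)
      have hL2 : ⌊t⌋₊ < 4 ^ (L + 1) := Nat.lt_pow_succ_log_self (by norm_num) _
      have hL1R : (4 : ℝ) ^ L ≤ t := by
        have h1 : ((4 ^ L : ℕ) : ℝ) ≤ (⌊t⌋₊ : ℝ) := by exact_mod_cast hL1
        have h2 : (⌊t⌋₊ : ℝ) ≤ t := Nat.floor_le ht.le
        push_cast at h1
        linarith
      have hL2R : t ≤ (4 : ℝ) ^ (L + 1) := by
        have h1 : t < (⌊t⌋₊ : ℝ) + 1 := Nat.lt_floor_add_one t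
        have h2 : ((⌊t⌋₊ + 1 : ℕ) : ℝ) ≤ ((4 ^ (L + 1) : ℕ) : ℝ) := by exact_mod_cast hL2
        push_cast at h2
        linarith
      have hLn : L ≤ n := by
        have h1 : L < 4 ^ L := Nat.lt_pow_self (by norm_num)
        have h2 : ((4 ^ L : ℕ) : ℝ) < (n : ℝ) := by push_cast; linarith
        have h3 : 4 ^ L < n := by exact_mod_cast h2
        omega
      have hsub : {θ : ℝ | ∃ c : ℝ,
              t < ((Finset.univ.filter (fun i : Fin n =>
                |cos θ * (proj (X u) i).1 + sin θ * (proj (X u) i).2 - c| ≤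
                  1 / (n : ℝ))).card : ℝ)} ⊆ manySet d n q L u := by
        rintro θ ⟨c, hc⟩
        have h1 := strip_le d n q hn u (X u) (hX u) (hb u) (h0 u) (cos θ) (sin θ) c
        have h2 : ((Finset.univ.filter (fun i : Fin n =>
                |cos θ * (proj (X u) i).1 + sin θ * (proj (X u) i).2 - c| ≤
                  1 / (n : ℝ))).card : ℝ) ≤
            ((lat d n q (cos θ) (sin θ) u 0).card : ℝ) := by exact_mod_cast h1
        have h3 : ((4 ^ L : ℕ) : ℝ) < ((lat d n q (cos θ) (sin θ) u 0).card : ℝ) := by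
          push_cast; linarith
        have h4 : 4 ^ L < (lat d n q (cos θ) (sin θ) u 0).card := by exact_mod_cast h3
        exact h4
      have hreal : (ν (manySet d n q L u)).toReal ≤ (ν Set.univ).toReal * (K / t ^ s) := by
        have h1 := hL L hLn
        rw [← mul_div_assoc, le_div_iff₀ (by positivity)]
        have h2 : t ^ s ≤ 4 ^ s * 4 ^ (s * L) := by
          calc t ^ s ≤ ((4 : ℝ) ^ (L + 1)) ^ s := pow_le_pow_left₀ ht.le hL2R s
            _ = 4 ^ s * 4 ^ (s * L) := by rw [← pow_mul, ← pow_add]; congr 1; ring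
        have h5 : 0 ≤ (ν Set.univ).toReal := ENNReal.toReal_nonneg
        calc (ν (manySet d n q L u)).toReal * t ^ s
            ≤ (ν (manySet d n q L u)).toReal * (4 ^ s * 4 ^ (s * L)) :=
              mul_le_mul_of_nonneg_left h2 ENNReal.toReal_nonneg
          _ = 4 ^ s * ((4 : ℝ) ^ (s * L) * (ν (manySet d n q L u)).toReal) := by ring
          _ ≤ 4 ^ s * (2 * B * (ν Set.univ).toReal) :=
              mul_le_mul_of_nonneg_left h1 (by positivity)
          _ = (ν Set.univ).toReal * (2 * B * 4 ^ s) := by ring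
          _ ≤ (ν Set.univ).toReal * K := by
              apply mul_le_mul_of_nonneg_left _ h5
              linarith
      calc ν _ ≤ ν (manySet d n q L u) := measure_mono hsub
        _ = ENNReal.ofReal (ν (manySet d n q L u)).toReal :=
            (ENNReal.ofReal_toReal (measure_ne_top ν _)).symm
        _ ≤ ENNReal.ofReal ((ν Set.univ).toReal * (K / t ^ s)) := ENNReal.ofReal_le_ofReal hreal
        _ = ν Set.univ * ENNReal.ofReal (K / t ^ s) := by
            rw [ENNReal.ofReal_mul ENNReal.toReal_nonneg,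
              ENNReal.ofReal_toReal (measure_ne_top ν _)]

end Pool.Agent.Results.MP_5458ad_co.MostDirections
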